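import Mathlib
import Pool.Agent.Y638.RF.NetZT

/-!
# Exact triangle: nondeterministic networks which test real formulas

The input consists of the `3 n ^ 2` weights of a complete tripartite graph with three parts of `n`
vertices; the weights are integers between `- (n + 1)` and `n + 1`. The question is whether there is a
triangle of weight zero.

A real formula (`Fml`) is built from real constants, arbitrary real functions of one weight, and
arbitrary real functions of `w` words of length `c log₂ n`, where each word is an arbitrary function
of one weight, by sums, products, sign tests `pos`, and gates `sym` of any fan-in whose value is an
arbitrary real function of the number of positive inputs. A network (`Net`) is a nondeterministic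
branching program, possibly with cycles: nodes, free edges, and edges which are guarded by real
formulas; it accepts if some path leads from the start node to the end node over edges which are open.
Nodes and free edges are not counted.

We show that random networks (Arthur-Merlin type: first the random choice, then the guesses) of size
at most `s` which accept the graphs with a triangle of weight zero, or which accept the graphs without
such a triangle, with error probability at most `1 / 3`, need
`n ^ 3 ≤ 4000 w (√n + 53 c w log₂ n) s`, that is, size of the order `n ^ (5 / 2)`, for an input of
`3 n ^ 2` numbers.

Proof. The weight of an edge `i j` between the first two parts takes one of the values `1, …, n`, and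
it asks with the value `k + 1` for the bit `z k` which is stored in the weight of the edge `j k`: this
weight is `- (k + 1)` or `0`. All other edges between the first two parts have the weight `n + 1`, and
all edges between the first and the third part have the weight `0`. If a network has `r` leaves
which see the weight of the edge `i j`, then the reachability between the end points of the `r` edges
gives `2 ^ O (r ^ 2)` possibilities, and the formulas on these edges take `2 ^ O (r log n)` different
functions of this weight (Warren's bound, `Pool.Agent.Y638.RF.Core`). So `r` is of the order `√n` for
every one of the `n ^ 2` edges.
-/

set_option autoImplicit false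

namespace Pool.Agent.Results.MP_62fbe0_lc.RealNetworks

open Pool.Agent.TH697.Form (IsProb)
open Pool.Agent.TH697.Row (ApproximatesOn)
open Pool.Agent.Y638.RF (Net)
open Pool.Agent.Y638.RF.ZT (InRange zeroTri)

theorem result : ∀ n c w : ℕ, 100 ≤ n → 1 ≤ c → 1 ≤ w →
    ∀ (Ω : Type) [Fintype Ω] (μ : Ω → ℝ), IsProb μ →
      ∀ (s : ℕ) (N : Ω → Net (Fin 3 × Fin n × Fin n) (fun _ => ℤ) w (n ^ c)),
        (∀ ω, (N ω).size ≤ s) →
        (ApproximatesOn μ (fun ω => (N ω).eval) InRange zeroTri ∨
          ApproximatesOn μ (fun ω x => !(N ω).eval x) InRange zeroTri) →
        (n : ℝ) ^ 3 ≤ 4000 * w * (√n + 53 * c * w * Real.logb 2 n) * s :=
  fun _ _ _ hn hc hw _ _ μ hμ s N hs hN =>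
    Pool.Agent.Y638.RF.ZT.net_bound' hn hc hw μ hμ s N hs hN

end Pool.Agent.Results.MP_62fbe0_lc.RealNetworks
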